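import Pool.Agent.TH979.Rot.Basic

/-!
# The algebraic normal form of a rotation symmetric function
-/

set_option autoImplicit false

namespace Pool.Agent.TH979.Rot

open Finset

section anf

variable {ι : Type} [Fintype ι] [DecidableEq ι]

/-- the function with the algebraic normal form `c` -/
def ev (c : Finset ι → ZMod 2) (x : ι → ZMod 2) : ZMod 2 := ∑ S, c S * ∏ i ∈ S, x i

theorem ev_ind (c : Finset ι → ZMod 2) (T : Finset ι) :
    ev c (fun i => if i ∈ T then 1 else 0) = ∑ S ∈ T.powerset, c S := by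
  unfold ev
  rw [← sum_filter_add_sum_filter_not univ (fun S => S ⊆ T)]
  have h1 : ∑ S ∈ univ.filter (fun S => ¬ S ⊆ T), c S * ∏ i ∈ S, (if i ∈ T then (1 : ZMod 2) else 0) =
      0 := by
    refine sum_eq_zero fun S hS => ?_
    obtain ⟨i, hi, hiT⟩ := not_subset.1 (mem_filter.1 hS).2
    rw [prod_eq_zero hi (if_neg hiT), mul_zero]
  rw [h1, add_zero]
  refine sum_congr ?_ fun S hS => ?_
  · ext S
    simp
  · rw [mem_powerset] at hS
    rw [prod_eq_one fun i hi => if_pos (hS hi), mul_one]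

/-- the algebraic normal form is unique -/
theorem anf_unique {c c' : Finset ι → ZMod 2} (h : ∀ x, ev c x = ev c' x) : c = c' := by
  funext T
  induction T using Finset.strongInduction with
  | H T ih =>
    have h1 := h (fun i => if i ∈ T then 1 else 0)
    rw [ev_ind, ev_ind, ← add_sum_erase _ _ (mem_powerset_self T),
      ← add_sum_erase _ _ (mem_powerset_self T)] at h1
    have h2 : ∑ S ∈ T.powerset.erase T, c S = ∑ S ∈ T.powerset.erase T, c' S := by
      refine sum_congr rfl fun S hS => ?_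
      rw [mem_erase, mem_powerset] at hS
      exact ih S (hS.2.ssubset_of_ne hS.1)
    rw [h2] at h1
    exact add_right_cancel h1

theorem ev_zero_of {c : Finset ι → ZMod 2} (h : ∀ S, c S ≠ 0 → S.Nonempty) : ev c 0 = 0 := by
  unfold ev
  refine sum_eq_zero fun S _ => ?_
  by_cases hS : c S = 0
  · rw [hS, zero_mul]
  · obtain ⟨i, hi⟩ := h S hS
    rw [prod_eq_zero hi rfl, mul_zero]

theorem key (x1 x2 x3 u1 u2 u3 v1 v2 v3 w1 w2 w3 : ZMod 2) :
    (x1+u1+v1+w1)*(x2+u2+v2+w2)*(x3+u3+v3+w3) + (x1+u1+v1)*(x2+u2+v2)*(x3+u3+v3)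
    + (x1+u1+w1)*(x2+u2+w2)*(x3+u3+w3) + (x1+v1+w1)*(x2+v2+w2)*(x3+v3+w3)
    + (x1+u1)*(x2+u2)*(x3+u3) + (x1+v1)*(x2+v2)*(x3+v3) + (x1+w1)*(x2+w2)*(x3+w3) + x1*x2*x3
    = (u1+v1+w1)*(u2+v2+w2)*(u3+v3+w3) + (u1+v1)*(u2+v2)*(u3+v3) + (u1+w1)*(u2+w2)*(u3+w3)
    + (v1+w1)*(v2+w2)*(v3+w3) + u1*u2*u3 + v1*v2*v3 + w1*w2*w3 := by
  ring_nf
  reduce_mod_char

/-- the third derivative of a cubic function is constant -/
theorem third {c : Finset ι → ZMod 2} (hc : ∀ S, c S ≠ 0 → S.card = 3) (x u v w : ι → ZMod 2) :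
    ev c (x + u + v + w) + ev c (x + u + v) + ev c (x + u + w) + ev c (x + v + w) +
      ev c (x + u) + ev c (x + v) + ev c (x + w) + ev c x =
    ev c (u + v + w) + ev c (u + v) + ev c (u + w) + ev c (v + w) + ev c u + ev c v + ev c w := by
  unfold ev
  simp only [← sum_add_distrib]
  refine sum_congr rfl fun S _ => ?_
  by_cases hS : c S = 0
  · simp [hS]
  · obtain ⟨i, j, k, hij, hik, hjk, rfl⟩ := card_eq_three.1 (hc S hS)
    have hp : ∀ z : ι → ZMod 2, ∏ l ∈ {i, j, k}, z l = z i * z j * z k := by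
      intro z
      rw [prod_insert (by simp [hij, hik]), prod_insert (by simp [hjk]), prod_singleton, mul_assoc]
    simp only [hp, Pi.add_apply]
    simp only [← mul_add]
    rw [key]

end anf

section cyc

variable {n : ℕ} [NeZero n]

/-- translation of subsets -/
def tr (a : ZMod n) : Finset (ZMod n) ≃ Finset (ZMod n) := (Equiv.addRight a).finsetCongr

theorem tr_apply (a : ZMod n) (S : Finset (ZMod n)) :
    tr a S = S.map (Equiv.addRight a).toEmbedding := rfl

theorem mem_tr {a i : ZMod n} {S : Finset (ZMod n)} : i ∈ tr a S ↔ i - a ∈ S := by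
  rw [tr_apply, mem_map_equiv]
  simp [sub_eq_add_neg]

theorem card_tr (a : ZMod n) (S : Finset (ZMod n)) : (tr a S).card = S.card := by
  rw [tr_apply, card_map]

theorem prod_tr (a : ZMod n) (S : Finset (ZMod n)) (x : ZMod n → ZMod 2) :
    ∏ i ∈ tr a S, x i = ∏ i ∈ S, x (i + a) := by
  rw [tr_apply, prod_map]
  rfl

/-- invariance under all rotations -/
theorem rot_all {f : (ZMod n → ZMod 2) → ZMod 2} (h : ∀ x, f (fun i => x (i + 1)) = f x)
    (a : ZMod n) (x : ZMod n → ZMod 2) : f (fun i => x (i + a)) = f x := by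
  have h1 : ∀ k : ℕ, ∀ x : ZMod n → ZMod 2, f (fun i => x (i + (k : ZMod n))) = f x := by
    intro k
    induction k with
    | zero => intro x; simp
    | succ k ih =>
      intro x
      rw [← ih x, ← h (fun i => x (i + (k : ZMod n)))]
      congr 1
      funext i
      push_cast
      congr 1
      ring
  have h2 := h1 a.val x
  rwa [ZMod.natCast_zmod_val] at h2

/-- the algebraic normal form of a rotation symmetric function is rotation symmetric -/
theorem anf_inv {c : Finset (ZMod n) → ZMod 2}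
    (h : ∀ x, ev c (fun i => x (i + 1)) = ev c x) (a : ZMod n) (S : Finset (ZMod n)) :
    c (tr a S) = c S := by
  have h1 : (fun S => c ((tr a).symm S)) = c := by
    apply anf_unique
    intro x
    rw [← rot_all h a x]
    unfold ev
    refine Fintype.sum_equiv (tr a).symm _ _ fun S => ?_
    obtain ⟨T, rfl⟩ := (tr a).surjective S
    simp only [Equiv.symm_apply_apply, prod_tr]
  have h2 := congrFun h1 (tr a S)
  simp only [Equiv.symm_apply_apply] at h2
  exact h2.symm

/-- sums over orbits -/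
theorem ev_eq_sum {c : Finset (ZMod n) → ZMod 2} (hodd : ∀ S, c S ≠ 0 → Odd S.card)
    (hinv : ∀ (a : ZMod n) S, c (tr a S) = c S) (x : ZMod n → ZMod 2) :
    ev c x = ∑ S ∈ univ.filter (fun S : Finset (ZMod n) => (0 : ZMod n) ∈ S),
      c S * ∑ a : ZMod n, ∏ j ∈ S, x (j + a) := by
  have h1 : ∀ S : Finset (ZMod n), c S * ∏ i ∈ S, x i =
      ∑ a : ZMod n, if a ∈ S then c S * ∏ i ∈ S, x i else 0 := by
    intro S
    rw [← sum_filter, sum_const, nsmul_eq_mul]
    have h2 : univ.filter (fun a => a ∈ S) = S := by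
      ext a
      simp
    rw [h2]
    by_cases hS : c S = 0
    · simp [hS]
    · obtain ⟨k, hk⟩ := hodd S hS
      rw [hk]
      push_cast
      linear_combination (-(k : ZMod 2) * (c S * ∏ i ∈ S, x i)) * (by decide : (2 : ZMod 2) = 0)
  have h3 : ev c x = ∑ a : ZMod n, ∑ S : Finset (ZMod n),
      if a ∈ S then c S * ∏ i ∈ S, x i else 0 := by
    rw [sum_comm]
    exact sum_congr rfl fun S _ => h1 S
  have h4 : ∀ a : ZMod n, (∑ S : Finset (ZMod n), if a ∈ S then c S * ∏ i ∈ S, x i else 0) =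
      ∑ S : Finset (ZMod n), if (0 : ZMod n) ∈ S then c S * ∏ j ∈ S, x (j + a) else 0 := by
    intro a
    refine (Fintype.sum_equiv (tr a) _ _ fun S => ?_).symm
    have h5 : (a ∈ tr a S) ↔ (0 : ZMod n) ∈ S := by
      rw [mem_tr, sub_self]
    simp only [h5, hinv, prod_tr]
  rw [h3]
  simp_rw [h4]
  rw [sum_comm, sum_filter]
  refine sum_congr rfl fun S _ => ?_
  split_ifs
  · rw [mul_sum]
  · simp

/-- functions whose monomials have odd degree vanish on the vectors of period `n / 2` -/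
theorem ev_zero_on {m : ℕ} (hn : n = 2 * m) {c : Finset (ZMod n) → ZMod 2}
    (hodd : ∀ S, c S ≠ 0 → Odd S.card) (hinv : ∀ (a : ZMod n) S, c (tr a S) = c S)
    {x : ZMod n → ZMod 2} (hx : ∀ i, x (i + (m : ZMod n)) = x i) : ev c x = 0 := by
  have hm0 : (m : ZMod n) ≠ 0 := by
    intro h
    rw [ZMod.natCast_eq_zero_iff] at h
    have h1 : n ≠ 0 := NeZero.ne n
    have h2 := Nat.le_of_dvd (by omega) h
    omega
  have hmm : (m : ZMod n) + m = 0 := by
    have h1 : ((2 * m : ℕ) : ZMod n) = 0 := by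
      rw [← hn]
      exact ZMod.natCast_self n
    push_cast at h1
    rw [← two_mul]
    exact h1
  unfold ev
  refine sum_involution (fun S _ => tr (m : ZMod n) S) ?_ ?_ (fun _ _ => mem_univ _) ?_
  · intro S _
    have h1 : ∏ i ∈ tr (m : ZMod n) S, x i = ∏ i ∈ S, x i := by
      rw [prod_tr]
      exact prod_congr rfl fun i _ => hx i
    rw [hinv, h1]
    exact add_self2 _
  · intro S _ hS h1
    have hcS : c S ≠ 0 := fun h => hS (by rw [h, zero_mul])
    have h2 : ∑ _i ∈ S, (1 : ZMod 2) = 0 := by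
      refine sum_involution (fun i _ => i + (m : ZMod n)) (fun _ _ => add_self2 1) ?_ ?_ ?_
      · intro i _ _ h3
        exact hm0 (by simpa using h3)
      · intro i hi
        rw [← h1, mem_tr, add_sub_cancel_right]
        exact hi
      · intro i _
        rw [add_assoc, hmm, add_zero]
    rw [sum_const, nsmul_eq_mul, mul_one] at h2
    obtain ⟨k, hk⟩ := hodd S hcS
    rw [hk] at h2
    push_cast at h2
    have h3 : (1 : ZMod 2) = 0 := by
      linear_combination h2 - (k : ZMod 2) * (by decide : (2 : ZMod 2) = 0)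
    exact absurd h3 (by decide)
  · intro S _
    ext i
    rw [mem_tr, mem_tr]
    have h3 : i - (m : ZMod n) - m = i := by
      rw [sub_sub, hmm, sub_zero]
    rw [h3]

end cyc

end Pool.Agent.TH979.Rot
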