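import Pool.Agent.TH979.Rot.Main

/-!
# Rotation symmetric bent functions: definitions
-/

set_option autoImplicit false

namespace Pool.Agent.TH979.Rot

open Finset

/-- bent functions -/
def IsBent {n : ℕ} (f : (Fin n → ZMod 2) → ZMod 2) : Prop :=
  ∀ a : Fin n → ZMod 2,
    (∑ x : Fin n → ZMod 2, (-1 : ℤ) ^ (f x + ∑ i, a i * x i).val) ^ 2 = (2 : ℤ) ^ n

/-- rotation symmetric functions -/
def IsRotSym {n : ℕ} (f : (Fin n → ZMod 2) → ZMod 2) : Prop :=
  ∀ x : Fin n → ZMod 2, f (x ∘ finRotate n) = f x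

/-- the degrees of the monomials of the algebraic normal form of `f` belong to `D` -/
def DegreesIn {n : ℕ} (D : Set ℕ) (f : (Fin n → ZMod 2) → ZMod 2) : Prop :=
  ∃ c : Finset (Fin n) → ZMod 2, (∀ S : Finset (Fin n), c S ≠ 0 → S.card ∈ D) ∧
    ∀ x : Fin n → ZMod 2, f x = ∑ S : Finset (Fin n), c S * ∏ i ∈ S, x i

theorem even_of_bent {n : ℕ} {f : (Fin n → ZMod 2) → ZMod 2} (h : IsBent f) : Even n := by
  have h1 := h 0
  set z : ℤ := ∑ x : Fin n → ZMod 2, (-1 : ℤ) ^ (f x + ∑ i, (0 : Fin n → ZMod 2) i * x i).val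
  have h2 : z.natAbs ^ 2 = 2 ^ n := by
    have h3 : ((z.natAbs ^ 2 : ℕ) : ℤ) = ((2 ^ n : ℕ) : ℤ) := by
      push_cast
      rw [sq_abs]
      exact h1
    exact_mod_cast h3
  have h4 := congrArg (fun m : ℕ => m.factorization 2) h2
  simp only [Nat.factorization_pow, Finsupp.coe_smul, Pi.smul_apply, smul_eq_mul,
    Nat.prime_two.factorization_self] at h4
  exact ⟨z.natAbs.factorization 2, by omega⟩

theorem transfer {k : ℕ} {f : (Fin (k + 1) → ZMod 2) → ZMod 2} {c : Finset (Fin (k + 1)) → ZMod 2}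
    (hb : IsBent f) (hr : IsRotSym f)
    (hc : ∀ x : Fin (k + 1) → ZMod 2, f x = ∑ S : Finset (Fin (k + 1)), c S * ∏ i ∈ S, x i) :
    (∀ x : ZMod (k + 1) → ZMod 2, ev (ι := ZMod (k + 1)) c (fun i => x (i + 1)) =
      ev (ι := ZMod (k + 1)) c x) ∧
    Bent (ev (ι := ZMod (k + 1)) c) := by
  have h1 : f = ev (ι := ZMod (k + 1)) c := funext hc
  rw [← h1]
  constructor
  · intro x
    have h4 : (fun i : ZMod (k + 1) => x (i + 1)) =
        (x ∘ finRotate (k + 1) : Fin (k + 1) → ZMod 2) := by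
      refine funext fun (i : Fin (k + 1)) => ?_
      exact (congrArg x (finRotate_apply i)).symm
    rw [h4]
    exact hr x
  · intro a
    have h2 := hb a
    rw [ZMod.card]
    exact h2

end Pool.Agent.TH979.Rot
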