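import Pool.Agent.TH979.Rot.Core

/-!
# Nonexistence theorems
-/

set_option autoImplicit false

namespace Pool.Agent.TH979.Rot

open Finset

/-- the vector of period eight and antiperiod four -/
def yv (a b c d : ZMod 2) : ZMod 8 → ZMod 2 := ![a, b, c, d, a + 1, b + 1, c + 1, d + 1]

set_option maxRecDepth 100000 in
theorem dec8 : ∀ σ τ : ZMod 8, ∀ a b c d : ZMod 2,
    ∑ r : ZMod 8, yv a b c d r * yv a b c d (r + σ) * yv a b c d (r + τ) =
    ∑ r : ZMod 8, yv 0 0 0 0 r * yv 0 0 0 0 (r + σ) * yv 0 0 0 0 (r + τ) := by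
  decide

/-- sequences of antiperiod four -/
theorem seq8 {Y : ℕ → ZMod 2} (h : ∀ k, Y (k + 4) = Y k + 1) (k : ℕ) :
    Y k = yv (Y 0) (Y 1) (Y 2) (Y 3) (k : ZMod 8) := by
  induction k using Nat.strong_induction_on with
  | _ k ih =>
    rcases lt_or_ge k 8 with hk | hk
    · interval_cases k
      · rfl
      · rfl
      · rfl
      · rfl
      · exact h 0
      · exact h 1
      · exact h 2
      · exact h 3
    · obtain ⟨j, rfl⟩ := Nat.exists_eq_add_of_le' hk
      have h1 : Y (j + 8) = Y j := by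
        have h2 := h (j + 4)
        have h3 := h j
        have e : j + 4 + 4 = j + 8 := by ring
        rw [e, h3, add_assoc, add_self2, add_zero] at h2
        exact h2
      rw [h1, ih j (by omega)]
      congr 1
      push_cast
      have : (8 : ZMod 8) = 0 := by decide
      rw [this, add_zero]

/-- sums of periodic functions -/
theorem sum_per {G : ℕ → ZMod 2} {N : ℕ} (h : ∀ k, G (k + N) = G k) (q : ℕ) :
    ∑ k ∈ range (N * q), G k = q * ∑ r ∈ range N, G r := by
  induction q with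
  | zero => simp
  | succ q ih =>
    have h1 : ∀ q r, G (N * q + r) = G r := by
      intro q r
      induction q with
      | zero => simp
      | succ q ih =>
        have e : N * (q + 1) + r = N * q + r + N := by ring
        rw [e, h, ih]
    rw [Nat.mul_succ, sum_range_add, ih]
    simp_rw [h1]
    push_cast
    ring

variable {n : ℕ} [NeZero n]

theorem sum_zmod (F : ZMod n → ZMod 2) : ∑ a : ZMod n, F a = ∑ k ∈ range n, F (k : ZMod n) := by
  symm
  refine sum_bij (fun k _ => (k : ZMod n)) (fun _ _ => mem_univ _) ?_ ?_ (fun _ _ => rfl)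
  · intro a ha b hb hab
    rw [mem_range] at ha hb
    have h1 := (ZMod.natCast_eq_natCast_iff a b n).1 hab
    exact Nat.ModEq.eq_of_lt_of_lt h1 ha hb
  · intro b _
    exact ⟨b.val, mem_range.2 (ZMod.val_lt b), ZMod.natCast_zmod_val b⟩

/-- the triple correlations of the vectors of antiperiod four -/
theorem triple {q : ℕ} (hn : n = 8 * q) {x : ZMod n → ZMod 2}
    (h : ∀ i, x (i + ((4 : ℕ) : ZMod n)) = x i + 1) (s t : ZMod n) :
    ∑ a : ZMod n, x a * x (s + a) * x (t + a) =
      q * ∑ r : ZMod 8, yv 0 0 0 0 r * yv 0 0 0 0 (r + (s.val : ZMod 8)) *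
        yv 0 0 0 0 (r + (t.val : ZMod 8)) := by
  set Y : ℕ → ZMod 2 := fun k => x (k : ZMod n) with hY
  have hY4 : ∀ k, Y (k + 4) = Y k + 1 := by
    intro k
    have h1 := h (k : ZMod n)
    simp only [hY]
    rw [← h1]
    push_cast
    rfl
  have hY8 : ∀ k, Y (k + 8) = Y k := by
    intro k
    have h2 : Y (k + 8) = Y k + 1 + 1 := by
      have h3 := hY4 (k + 4)
      rw [hY4 k] at h3
      exact h3
    rw [h2, add_assoc, add_self2, add_zero]
  rw [sum_zmod]
  have h1 : ∀ k : ℕ, x (k : ZMod n) * x (s + k) * x (t + k) =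
      Y k * Y (k + s.val) * Y (k + t.val) := by
    intro k
    simp only [hY]
    push_cast
    rw [ZMod.natCast_zmod_val, ZMod.natCast_zmod_val, add_comm s, add_comm t]
  simp_rw [h1]
  have h2 : range n = range (8 * q) := by rw [← hn]
  rw [h2, sum_per (N := 8) (fun k => by
    have e1 : k + 8 + s.val = k + s.val + 8 := by ring
    have e2 : k + 8 + t.val = k + t.val + 8 := by ring
    rw [e1, e2, hY8, hY8, hY8]) q]
  congr 1
  rw [← dec8 (s.val : ZMod 8) (t.val : ZMod 8) (Y 0) (Y 1) (Y 2) (Y 3), sum_zmod (n := 8)]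
  refine sum_congr rfl fun k _ => ?_
  rw [seq8 hY4 k, seq8 hY4 (k + s.val), seq8 hY4 (k + t.val)]
  push_cast
  rfl

/-- a rotation symmetric cubic form is constant on the vectors of antiperiod four -/
theorem const4 {q : ℕ} (hn : n = 8 * q) {c : Finset (ZMod n) → ZMod 2}
    (hc : ∀ S, c S ≠ 0 → S.card = 3) (hinv : ∀ (a : ZMod n) S, c (tr a S) = c S)
    {x x' : ZMod n → ZMod 2} (h : ∀ i, x (i + ((4 : ℕ) : ZMod n)) = x i + 1)
    (h' : ∀ i, x' (i + ((4 : ℕ) : ZMod n)) = x' i + 1) : ev c x = ev c x' := by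
  have hodd : ∀ S, c S ≠ 0 → Odd S.card := fun S hS => by
    rw [hc S hS]
    decide
  rw [ev_eq_sum hodd hinv, ev_eq_sum hodd hinv]
  refine sum_congr rfl fun S hS => ?_
  rw [mem_filter] at hS
  by_cases h0 : c S = 0
  · rw [h0, zero_mul, zero_mul]
  congr 1
  have h1 : (S.erase 0).card = 2 := by
    rw [card_erase_of_mem hS.2, hc S h0]
  obtain ⟨s, t, hst, he⟩ := card_eq_two.1 h1
  have h2 : S = insert 0 {s, t} := by
    rw [← he, insert_erase hS.2]
  have hs : s ≠ 0 := by
    have : s ∈ S.erase 0 := by rw [he]; simp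
    exact ne_of_mem_erase this
  have ht : t ≠ 0 := by
    have : t ∈ S.erase 0 := by rw [he]; simp
    exact ne_of_mem_erase this
  have h3 : ∀ z : ZMod n → ZMod 2, ∀ a : ZMod n, ∏ j ∈ S, z (j + a) =
      z a * z (s + a) * z (t + a) := by
    intro z a
    rw [h2, prod_insert (by simp [hs.symm, ht.symm]), prod_insert (by simp [hst]), prod_singleton,
      zero_add, mul_assoc]
  simp_rw [h3]
  rw [triple hn h, triple hn h']

/-- **Cubic forms.** -/
theorem cubic_zmod {c : Finset (ZMod n) → ZMod 2} (hc : ∀ S, c S ≠ 0 → S.card = 3)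
    (hrot : ∀ x, ev c (fun i => x (i + 1)) = ev c x) (hb : Bent (ev c)) {M k : ℕ}
    (hM : M = 1 ∨ M = 2 ∨ M = 4) (hn : n = 2 * (M * (2 * k + 1))) : False := by
  have hodd : ∀ S, c S ≠ 0 → Odd S.card := fun S hS => by
    rw [hc S hS]
    decide
  have hinv := anf_inv hrot
  have h0 : ∀ x ∈ Um n (M * (2 * k + 1)), ev c x = 0 := fun x hx =>
    ev_zero_on hn hodd (fun a S => hinv a S) hx
  have hM0 : 0 < M := by omega
  obtain ⟨x, x', hx, hx', hxx⟩ := cubic_core hM0 hn (rot_all hrot) hb h0 (by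
    intro x u hu v hv w hw
    rw [third hc, h0 _ (add_mem (add_mem hu hv) hw), h0 _ (add_mem hu hv), h0 _ (add_mem hu hw),
      h0 _ (add_mem hv hw), h0 _ hu, h0 _ hv, h0 _ hw]
    simp)
  have heq : ev c x' = ev c x := by
    rcases hM with hM | hM | hM
    · obtain ⟨a, ha⟩ := orbit (Or.inl hM) hx hx'
      rw [ha, rot_all hrot]
    · obtain ⟨a, ha⟩ := orbit (Or.inr hM) hx hx'
      rw [ha, rot_all hrot]
    · subst hM
      exact const4 (q := 2 * k + 1) (by rw [hn]; ring) hc (fun a S => hinv a S) hx' hx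
  rw [heq] at hxx
  exact absurd (by linear_combination -hxx : (1 : ZMod 2) = 0) (by decide)

/-- **Odd degrees.** -/
theorem odd_zmod {c : Finset (ZMod n) → ZMod 2} (hodd : ∀ S, c S ≠ 0 → Odd S.card)
    (hrot : ∀ x, ev c (fun i => x (i + 1)) = ev c x) (hb : Bent (ev c)) {M p s : ℕ}
    (hM : M = 1 ∨ M = 2) (hp : p.Prime) (hp2 : p ≠ 2) (hn : n = 2 * (M * p ^ s)) : False := by
  have hinv := anf_inv hrot
  have h0 : ∀ x ∈ Um n (M * p ^ s), ev c x = 0 := fun x hx =>
    ev_zero_on hn hodd (fun a S => hinv a S) hx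
  have hM0 : 0 < M := by omega
  obtain ⟨x, hx, h1⟩ := odd_core hM0 hp hp2 hn (rot_all hrot) hb h0 0
  obtain ⟨x', hx', h1'⟩ := odd_core hM0 hp hp2 hn (rot_all hrot) hb h0 1
  obtain ⟨a, ha⟩ := orbit hM hx hx'
  rw [ha, rot_all hrot, h1] at h1'
  exact absurd h1' (by decide)

end Pool.Agent.TH979.Rot
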